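import Mathlib
import Pool.Agent.H279R3.LogC

set_option autoImplicit false

namespace Pool.Agent.Results.MP_4388f3_co.LogConvergence

open Filter Topology Pool.Agent.H279R3.LogConv

/-- A finite bipartite graph `(V₁, V₂, E)` with labelled classes and `E ⊆ V₁ × V₂`. -/
structure BiGraph where
  V₁ : Type
  V₂ : Type
  [fin₁ : Fintype V₁]
  [fin₂ : Fintype V₂]
  E : V₁ → V₂ → Prop

attribute [instance] BiGraph.fin₁ BiGraph.fin₂

/-- The number of graph homomorphisms `H → G` mapping `V₁(H)` into `V₁(G)` and `V₂(H)` into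
`V₂(G)`. -/
noncomputable def hom (H G : BiGraph) : ℕ :=
  Nat.card {f : (H.V₁ → G.V₁) × (H.V₂ → G.V₂) // ∀ x y, H.E x y → G.E (f.1 x) (f.2 y)}

/-- The bipartite density `t_B(H,G)`. -/
noncomputable def tB (H G : BiGraph) : ℝ :=
  (hom H G : ℝ) /
    ((Fintype.card G.V₁ : ℝ) ^ Fintype.card H.V₁ * (Fintype.card G.V₂ : ℝ) ^ Fintype.card H.V₂)

/-- The class `𝓑₀`: the graph has at least one edge. -/
def HasEdge (H : BiGraph) : Prop := ∃ x y, H.E x y

/-- Log-convergence of a sequence of finite bipartite graphs (Szegedy). -/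
def LogConvergent (G : ℕ → BiGraph) : Prop :=
  ∀ H₁ H₂ : BiGraph, HasEdge H₁ → HasEdge H₂ →
    ∃ l : ℝ, Tendsto (fun n => (-Real.log (tB H₁ (G n))) / (-Real.log (tB H₂ (G n)))) atTop (𝓝 l)

/-- The incidence graph of a finite incidence structure: points as `V₁`, lines as `V₂`. -/
def incidenceGraph (P L : Type) [Membership P L] [Fintype P] [Fintype L] : BiGraph where
  V₁ := P
  V₂ := L
  E := fun p l => p ∈ l

/-! ### Translation -/

/-- symmetrised relation on the disjoint union -/
def sumRel {A B : Type} (E : A → B → Prop) : A ⊕ B → A ⊕ B → Prop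
  | Sum.inl x, Sum.inr y => E x y
  | Sum.inr y, Sum.inl x => E x y
  | _, _ => False

def toPat (H : BiGraph) : Pat where
  V := H.V₁ ⊕ H.V₂
  κ := Sum.isLeft
  R := sumRel H.E
  symm := by
    rintro (x | x) (y | y) h
    · exact h
    · exact h
    · exact h
    · exact h
  col_ne := by
    rintro (x | x) (y | y) h
    · exact h.elim
    · simp
    · simp
    · exact h.elim

section Plane

variable (P L : Type) [Membership P L] [Fintype P] [Fintype L] [Configuration.ProjectivePlane P L]

def nbL (p : P) : {y : P ⊕ L // sumRel (fun (p : P) (l : L) => p ∈ l) (Sum.inl p) y} ≃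
    {l : L // p ∈ l} where
  toFun := fun y => match y with
    | ⟨Sum.inr l, h⟩ => ⟨l, h⟩
    | ⟨Sum.inl _, h⟩ => h.elim
  invFun := fun l => ⟨Sum.inr l.1, l.2⟩
  left_inv := by
    rintro ⟨(x | x), h⟩
    · exact h.elim
    · rfl
  right_inv := by
    rintro ⟨l, h⟩
    rfl

def nbR (l : L) : {y : P ⊕ L // sumRel (fun (p : P) (l : L) => p ∈ l) (Sum.inr l) y} ≃
    {p : P // p ∈ l} where
  toFun := fun y => match y with
    | ⟨Sum.inl p, h⟩ => ⟨p, h⟩
    | ⟨Sum.inr _, h⟩ => h.elim
  invFun := fun p => ⟨Sum.inl p.1, p.2⟩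
  left_inv := by
    rintro ⟨(x | x), h⟩
    · rfl
    · exact h.elim
  right_inv := by
    rintro ⟨l, h⟩
    rfl

def colL : {y : P ⊕ L // y.isLeft = true} ≃ P where
  toFun := fun y => match y with
    | ⟨Sum.inl p, _⟩ => p
  invFun := fun p => ⟨Sum.inl p, rfl⟩
  left_inv := by
    rintro ⟨(x | x), h⟩
    · rfl
    · exact absurd h (by simp)
  right_inv := by
    intro p
    rfl

def colR : {y : P ⊕ L // y.isLeft = false} ≃ L where
  toFun := fun y => match y with
    | ⟨Sum.inr p, _⟩ => p
  invFun := fun p => ⟨Sum.inr p, rfl⟩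
  left_inv := by
    rintro ⟨(x | x), h⟩
    · exact absurd h (by simp)
    · rfl
  right_inv := by
    intro p
    rfl

open Configuration in
noncomputable def toPlane : PlaneGraph where
  W := P ⊕ L
  col := Sum.isLeft
  Adj := sumRel (fun p l => p ∈ l)
  m := ProjectivePlane.order P L
  hm := (ProjectivePlane.one_lt_order P L).le
  symm := by
    rintro (x | x) (y | y) h
    · exact h
    · exact h
    · exact h
    · exact h
  col_ne := by
    rintro (x | x) (y | y) h
    · exact h.elim
    · simp
    · simp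
    · exact h.elim
  nbr := by
    rintro (p | l)
    · rw [Nat.card_congr (nbL P L p)]
      exact ProjectivePlane.lineCount_eq L p
    · rw [Nat.card_congr (nbR P L l)]
      exact ProjectivePlane.pointCount_eq P l
  common := by
    rintro (x | x) (y | y) hne hcol
    · have hxy : x ≠ y := fun h => hne (h ▸ rfl)
      refine ⟨Sum.inr (HasLines.mkLine (L := L) hxy), (HasLines.mkLine_ax hxy).1,
        (HasLines.mkLine_ax hxy).2, ?_⟩
      rintro (z | z) h1 h2
      · exact h1.elim
      · congr 1
        exact (Nondegenerate.eq_or_eq (P := P) (L := L) h1 h2 (HasLines.mkLine_ax hxy).1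
          (HasLines.mkLine_ax hxy).2).resolve_left hxy
    · exact absurd hcol (by simp)
    · exact absurd hcol (by simp)
    · have hxy : x ≠ y := fun h => hne (h ▸ rfl)
      refine ⟨Sum.inl (HasPoints.mkPoint (P := P) hxy), (HasPoints.mkPoint_ax hxy).1,
        (HasPoints.mkPoint_ax hxy).2, ?_⟩
      rintro (z | z) h1 h2
      · congr 1
        exact (Nondegenerate.eq_or_eq (P := P) (L := L) h1 (HasPoints.mkPoint_ax hxy).1 h2
          (HasPoints.mkPoint_ax hxy).2).resolve_right hxy
      · exact h1.elim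
  cnt := by
    rintro (b | b)
    · rw [Nat.card_congr (colR P L), Nat.card_eq_fintype_card]
      exact ProjectivePlane.card_lines P L
    · rw [Nat.card_congr (colL P L), Nat.card_eq_fintype_card]
      exact ProjectivePlane.card_points P L

theorem hom_eq (H : BiGraph) :
    hom H (incidenceGraph P L) = cnt (toPat H) (toPlane P L) := by
  classical
  unfold hom cnt
  rw [← Fintype.card_coe, ← Nat.card_eq_fintype_card]
  refine Nat.card_congr (Equiv.ofBijective
    (fun f => (⟨Sum.map f.1.1 f.1.2, ?_⟩ : {φ // φ ∈ homs (toPat H) (toPlane P L)})) ⟨?_, ?_⟩)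
  · refine mem_homs.2 ⟨?_, ?_⟩
    · rintro (x | x)
      · rfl
      · rfl
    · rintro (x | x) (y | y) hxy
      · exact hxy.elim
      · exact f.2 x y hxy
      · exact f.2 y x hxy
      · exact hxy.elim
  · rintro ⟨⟨f₁, f₂⟩, hf⟩ ⟨⟨g₁, g₂⟩, hg⟩ h
    have h1 := congrArg Subtype.val h
    simp only at h1
    apply Subtype.ext
    apply Prod.ext
    · funext x
      exact Sum.inl.inj (congrFun h1 (Sum.inl x))
    · funext x
      exact Sum.inr.inj (congrFun h1 (Sum.inr x))
  · rintro ⟨φ, hφ⟩
    rw [mem_homs] at hφ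
    have h1 : ∀ x : H.V₁, ∃ p : P, φ (Sum.inl x) = Sum.inl p := by
      intro x
      have h2 := hφ.1 (Sum.inl x)
      change (φ (Sum.inl x)).isLeft = true at h2
      rcases hx : φ (Sum.inl x) with p | l
      · exact ⟨p, rfl⟩
      · rw [hx] at h2; exact absurd h2 (by simp)
    have h2 : ∀ x : H.V₂, ∃ l : L, φ (Sum.inr x) = Sum.inr l := by
      intro x
      have h2 := hφ.1 (Sum.inr x)
      change (φ (Sum.inr x)).isLeft = false at h2
      rcases hx : φ (Sum.inr x) with p | l
      · rw [hx] at h2; exact absurd h2 (by simp)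
      · exact ⟨l, rfl⟩
    choose f₁ hf₁ using h1
    choose f₂ hf₂ using h2
    refine ⟨⟨(f₁, f₂), ?_⟩, ?_⟩
    · intro x y hxy
      have h3 := hφ.2 (Sum.inl x) (Sum.inr y) hxy
      rw [hf₁, hf₂] at h3
      exact h3
    · apply Subtype.ext
      funext x
      rcases x with x | x
      · exact (hf₁ x).symm
      · exact (hf₂ x).symm

end Plane

/-! ### Asymptotics -/

theorem log_lim (h m : ℕ → ℕ) (e C : ℕ) (hm : Tendsto m atTop atTop)
    (h1 : ∀ n, h n ≤ C * m n ^ e) (h2 : ∀ n, m n ^ e ≤ C * h n) :
    Tendsto (fun n => Real.log (h n) / Real.log (m n)) atTop (𝓝 (e : ℝ)) := by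
  have hlogm : Tendsto (fun n => Real.log (m n)) atTop atTop :=
    Real.tendsto_log_atTop.comp (tendsto_natCast_atTop_atTop.comp hm)
  have hlim : Tendsto (fun n => Real.log C / Real.log (m n)) atTop (𝓝 0) :=
    Filter.Tendsto.const_div_atTop hlogm _
  have hlo : Tendsto (fun n => (e : ℝ) - Real.log C / Real.log (m n)) atTop (𝓝 (e : ℝ)) := by
    simpa using (tendsto_const_nhds (x := (e : ℝ))).sub hlim
  have hhi : Tendsto (fun n => (e : ℝ) + Real.log C / Real.log (m n)) atTop (𝓝 (e : ℝ)) := by
    simpa using (tendsto_const_nhds (x := (e : ℝ))).add hlim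
  have hev : ∀ᶠ n in atTop, 2 ≤ m n := hm.eventually_ge_atTop 2
  refine tendsto_of_tendsto_of_tendsto_of_le_of_le' hlo hhi ?_ ?_
  · filter_upwards [hev] with n hn
    have hmpos : (0 : ℝ) < m n := by exact_mod_cast (by omega : 0 < m n)
    have hlpos : 0 < Real.log (m n) := Real.log_pos (by exact_mod_cast (by omega : 1 < m n))
    have hpp : 0 < m n ^ e := pow_pos (by omega) _
    have hCh : 0 < C * h n := lt_of_lt_of_le hpp (h2 n)
    have hC : 0 < C := Nat.pos_of_mul_pos_right hCh
    have hh : 0 < h n := Nat.pos_of_mul_pos_left hCh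
    have key : (e : ℝ) * Real.log (m n) ≤ Real.log C + Real.log (h n) := by
      rw [← Real.log_pow, ← Real.log_mul (by exact_mod_cast hC.ne') (by exact_mod_cast hh.ne')]
      apply Real.log_le_log
      · exact_mod_cast hpp
      · exact_mod_cast h2 n
    rw [sub_le_iff_le_add, ← add_div, le_div_iff₀ hlpos]
    linarith
  · filter_upwards [hev] with n hn
    have hmpos : (0 : ℝ) < m n := by exact_mod_cast (by omega : 0 < m n)
    have hlpos : 0 < Real.log (m n) := Real.log_pos (by exact_mod_cast (by omega : 1 < m n))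
    have hpp : 0 < m n ^ e := pow_pos (by omega) _
    have hCh : 0 < C * h n := lt_of_lt_of_le hpp (h2 n)
    have hC : 0 < C := Nat.pos_of_mul_pos_right hCh
    have hh : 0 < h n := Nat.pos_of_mul_pos_left hCh
    have key : Real.log (h n) ≤ Real.log C + e * Real.log (m n) := by
      rw [← Real.log_pow, ← Real.log_mul (by exact_mod_cast hC.ne') (by positivity)]
      apply Real.log_le_log
      · exact_mod_cast hh
      · exact_mod_cast h1 n
    rw [div_le_iff₀ hlpos, add_mul, div_mul_cancel₀ _ hlpos.ne']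
    linarith

/-- The exponent of a pattern with an edge is smaller than twice the number of its vertices. -/
theorem edge_bound (H : Pat) (v u : H.V) (hvu : H.R v u) (G : PlaneGraph) :
    cnt H G ≤ (G.m + 1) * (2 * (G.m ^ 2 + G.m + 1)) ^ (Fintype.card H.V - 1) := by
  classical
  have huv : u ≠ v := by
    rintro rfl
    exact H.col_ne _ _ hvu rfl
  rw [cnt_eq_sum H v G]
  have hW : Fintype.card G.W = 2 * (G.m ^ 2 + G.m + 1) := by
    have h1 := card_col G true
    have h2 := card_col G false
    have h3 : (Finset.univ.filter (fun x => G.col x = true)).card +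
        (Finset.univ.filter (fun x => ¬ G.col x = true)).card = Fintype.card G.W :=
      Finset.card_filter_add_card_filter_not _
    have h4 : Finset.univ.filter (fun x => ¬ G.col x = true) =
        Finset.univ.filter (fun x => G.col x = false) := by
      apply Finset.filter_congr
      intro x _
      simp
    rw [h4] at h3
    omega
  have hle : ∀ ψ ∈ homs (H.restrict (fun x => x ≠ v)) G, (ext1 H v G ψ).card ≤ G.m + 1 := by
    intro ψ _
    rw [← card_nb G (ψ ⟨u, huv⟩)]
    apply Finset.card_le_card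
    intro y hy
    rw [ext1, Finset.mem_filter] at hy
    rw [mem_nb]
    exact G.symm _ _ (hy.2.2 ⟨u, huv⟩ hvu)
  refine (Finset.sum_le_card_nsmul _ _ _ hle).trans ?_
  rw [smul_eq_mul, mul_comm]
  apply Nat.mul_le_mul_left
  refine (Finset.card_le_univ _).trans ?_
  rw [Fintype.card_fun, hW]
  apply le_of_eq
  congr 1
  exact @Set.card_ne_eq H.V H.fV v _


/-- Along planes of order tending to infinity `- log t_B(H, G) / log m` converges, and the limit
is positive if `H` has an edge. -/
theorem main_lim (H : BiGraph) (P L : ℕ → Type) [∀ n, Membership (P n) (L n)]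
    [∀ n, Fintype (P n)] [∀ n, Fintype (L n)] [∀ n, Configuration.ProjectivePlane (P n) (L n)]
    (h : Tendsto (fun n => Configuration.ProjectivePlane.order (P n) (L n)) atTop atTop) :
    ∃ d : ℝ, (HasEdge H → 0 < d) ∧
      Tendsto (fun n => (-Real.log (tB H (incidenceGraph (P n) (L n)))) /
        Real.log (Configuration.ProjectivePlane.order (P n) (L n))) atTop (𝓝 d) := by
  obtain ⟨e, C, hC⟩ := good_cnt _ (toPat H) rfl
  have hm : ∀ n, (toPlane (P n) (L n)).m = Configuration.ProjectivePlane.order (P n) (L n) :=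
    fun n => rfl
  have hhom : ∀ n, hom H (incidenceGraph (P n) (L n)) = cnt (toPat H) (toPlane (P n) (L n)) :=
    fun n => hom_eq (P n) (L n) H
  set m : ℕ → ℕ := fun n => Configuration.ProjectivePlane.order (P n) (L n) with hmdef
  set N : ℕ → ℕ := fun n => m n ^ 2 + m n + 1 with hN
  set a := Fintype.card H.V₁ with ha
  set b := Fintype.card H.V₂ with hb
  have hm1 : ∀ n, 1 ≤ m n := fun n => (Configuration.ProjectivePlane.one_lt_order _ _).le
  have l1 : Tendsto (fun n => Real.log (hom H (incidenceGraph (P n) (L n)) : ℕ) /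
      Real.log (m n)) atTop (𝓝 (e : ℝ)) := by
    refine log_lim _ m e C h (fun n => ?_) (fun n => ?_)
    · rw [hhom]; exact (hC (toPlane (P n) (L n))).1
    · rw [hhom]; exact (hC (toPlane (P n) (L n))).2
  have l2 : Tendsto (fun n => Real.log (N n : ℕ) / Real.log (m n)) atTop (𝓝 ((2 : ℕ) : ℝ)) := by
    refine log_lim _ m 2 3 h (fun n => ?_) (fun n => ?_)
    · have := hm1 n
      simp only [hN]
      nlinarith
    · simp only [hN]
      nlinarith
  have hpos : ∀ n, 0 < hom H (incidenceGraph (P n) (L n)) := by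
    intro n
    have h1 := (hC (toPlane (P n) (L n))).2
    rw [← hhom, hm] at h1
    have h2 : 0 < m n ^ e := pow_pos (hm1 n) _
    exact Nat.pos_of_mul_pos_left (lt_of_lt_of_le h2 h1)
  have hlog : ∀ n, -Real.log (tB H (incidenceGraph (P n) (L n))) =
      (a + b) * Real.log (N n : ℕ) - Real.log (hom H (incidenceGraph (P n) (L n)) : ℕ) := by
    intro n
    have c1 : Fintype.card (incidenceGraph (P n) (L n)).V₁ = N n :=
      Configuration.ProjectivePlane.card_points (P n) (L n)
    have c2 : Fintype.card (incidenceGraph (P n) (L n)).V₂ = N n :=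
      Configuration.ProjectivePlane.card_lines (P n) (L n)
    have hNpos : (0 : ℝ) < (N n : ℕ) := by
      have : 0 < N n := by simp only [hN]; omega
      exact_mod_cast this
    have hh : (0 : ℝ) < (hom H (incidenceGraph (P n) (L n)) : ℕ) := by exact_mod_cast hpos n
    unfold tB
    rw [c1, c2, ← ha, ← hb, Real.log_div hh.ne' (by positivity), Real.log_mul (by positivity)
      (by positivity), Real.log_pow, Real.log_pow]
    ring
  refine ⟨(a + b) * 2 - e, ?_, ?_⟩
  · rintro ⟨x, y, hxy⟩
    have hcardV : Fintype.card (toPat H).V = a + b := Fintype.card_sum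
    have hab : 1 ≤ a + b := by
      have : 0 < a := Fintype.card_pos_iff.2 ⟨x⟩
      omega
    have key : e < 2 * (a + b) := by
      by_contra hcon
      push Not at hcon
      obtain ⟨n, hn⟩ := (h.eventually_gt_atTop (C * (2 * 6 ^ (a + b - 1)))).exists
      have h1 := (hC (toPlane (P n) (L n))).2
      have h2 := edge_bound (toPat H) (Sum.inl x) (Sum.inr y) hxy (toPlane (P n) (L n))
      rw [hcardV] at h2
      rw [hm] at h1 h2
      change m n ^ e ≤ _ at h1
      change _ ≤ (m n + 1) * (2 * (m n ^ 2 + m n + 1)) ^ (a + b - 1) at h2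
      have h3 := hm1 n
      have h4 : m n + 1 ≤ 2 * m n := by omega
      have h5 : 2 * (m n ^ 2 + m n + 1) ≤ 6 * m n ^ 2 := by nlinarith
      have h6 : (m n + 1) * (2 * (m n ^ 2 + m n + 1)) ^ (a + b - 1) ≤
          (2 * m n) * (6 * m n ^ 2) ^ (a + b - 1) :=
        Nat.mul_le_mul h4 (Nat.pow_le_pow_left h5 _)
      have h7 : (2 * m n) * (6 * m n ^ 2) ^ (a + b - 1) =
          (2 * 6 ^ (a + b - 1)) * m n ^ (2 * (a + b) - 1) := by
        rw [mul_pow, ← pow_mul]
        have : 2 * (a + b) - 1 = 2 * (a + b - 1) + 1 := by omega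
        rw [this, pow_succ]
        ring
      have h8 : m n ^ (2 * (a + b)) ≤ m n ^ e := Nat.pow_le_pow_right h3 hcon
      have h9 : m n ^ (2 * (a + b)) ≤ C * ((2 * 6 ^ (a + b - 1)) * m n ^ (2 * (a + b) - 1)) := by
        rw [← h7]
        exact h8.trans (h1.trans (Nat.mul_le_mul_left _ (h2.trans h6)))
      have h10 : m n ^ (2 * (a + b)) = m n * m n ^ (2 * (a + b) - 1) := by
        rw [← pow_succ']
        congr 1
        omega
      rw [h10, ← mul_assoc] at h9
      have h11 : 0 < m n ^ (2 * (a + b) - 1) := pow_pos h3 _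
      have h12 := Nat.le_of_mul_le_mul_right h9 h11
      change C * (2 * 6 ^ (a + b - 1)) < m n at hn
      omega
    have : (e : ℝ) < 2 * (a + b) := by exact_mod_cast key
    linarith
  · have h3 : Tendsto (fun n => (a + b) * (Real.log (N n : ℕ) / Real.log (m n)) -
        Real.log (hom H (incidenceGraph (P n) (L n)) : ℕ) / Real.log (m n)) atTop
        (𝓝 ((a + b) * 2 - e)) := by
      have := (l2.const_mul ((a : ℝ) + b)).sub l1
      simpa using this
    refine h3.congr (fun n => ?_)
    rw [hlog n]
    ring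

/-- The incidence graphs of arbitrary finite projective planes whose orders tend to infinity form
a log-convergent sequence. -/
theorem result (P L : ℕ → Type) [∀ n, Membership (P n) (L n)]
    [∀ n, Fintype (P n)] [∀ n, Fintype (L n)] [∀ n, Configuration.ProjectivePlane (P n) (L n)]
    (h : Tendsto (fun n => Configuration.ProjectivePlane.order (P n) (L n)) atTop atTop) :
    LogConvergent (fun n => incidenceGraph (P n) (L n)) := by
  intro H₁ H₂ _ he₂
  obtain ⟨d₁, -, h₁⟩ := main_lim H₁ P L h
  obtain ⟨d₂, hd₂, h₂⟩ := main_lim H₂ P L h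
  refine ⟨d₁ / d₂, ?_⟩
  refine (h₁.div h₂ (hd₂ he₂).ne').congr' ?_
  filter_upwards [h.eventually_ge_atTop 2] with n hn
  have hlpos : 0 < Real.log (Configuration.ProjectivePlane.order (P n) (L n)) :=
    Real.log_pos (by exact_mod_cast (by omega : 1 < Configuration.ProjectivePlane.order (P n) (L n)))
  simp only [Pi.div_apply]
  rw [div_div_div_cancel_right₀ hlpos.ne']

end Pool.Agent.Results.MP_4388f3_co.LogConvergence
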